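import Pool.Agent.Q44.JQ.Stm

/-!
# Project JQ: unlinked families span singular subspaces
-/

set_option autoImplicit false

namespace Pool.Agent.Q299.JQ

open Q44.JQ Finset

section

variable {V : Type} [AddCommGroup V] [Module (ZMod 2) V]

/-- The polar form of `ω z.2 z.1`. -/
noncomputable def polB (ω : V →ₗ[ZMod 2] V →ₗ[ZMod 2] ZMod 2) :
    LinearMap.BilinForm (ZMod 2) (V × V) :=
  LinearMap.mk₂ (ZMod 2) (fun z w => ω z.2 w.1 + ω w.2 z.1)
    (fun z z' w => by simp only [Prod.fst_add, Prod.snd_add, map_add, LinearMap.add_apply]; ring)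
    (fun a z w => by
      simp only [Prod.smul_fst, Prod.smul_snd, map_smul, LinearMap.smul_apply, smul_eq_mul]; ring)
    (fun z w w' => by simp only [Prod.fst_add, Prod.snd_add, map_add, LinearMap.add_apply]; ring)
    (fun a z w => by
      simp only [Prod.smul_fst, Prod.smul_snd, map_smul, LinearMap.smul_apply, smul_eq_mul]; ring)

theorem polB_apply (ω : V →ₗ[ZMod 2] V →ₗ[ZMod 2] ZMod 2) (z w : V × V) :
    polB ω z w = ω z.2 w.1 + ω w.2 z.1 := rfl

theorem Q_add (ω : V →ₗ[ZMod 2] V →ₗ[ZMod 2] ZMod 2) (z w : V × V) :
    ω (z + w).2 (z + w).1 = ω z.2 z.1 + ω w.2 w.1 + polB ω z w := by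
  rw [polB_apply]
  simp only [Prod.fst_add, Prod.snd_add, map_add, LinearMap.add_apply]
  ring

end

theorem t_ORT : S_ORT := by
  classical
  intro V ι _ _ _ _ ω halt hnd Z hZ
  have h2 : ∀ v : V × V, v + v = 0 := fun v => ZModModule.add_self v
  have h2' : ∀ a : ZMod 2, a + a = 0 := by decide
  -- polar values of adjacent differences
  have hadj : ∀ i j k, polB ω (Z i + Z j) (Z i + Z k) = 0 := by
    intro i j k
    have h3 := Q_add ω (Z i + Z j) (Z i + Z k)
    have h4 : Z i + Z j + (Z i + Z k) = Z j + Z k := by
      have : Z i + Z j + (Z i + Z k) = (Z i + Z i) + (Z j + Z k) := by abel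
      rw [this, h2, zero_add]
    rw [h4, hZ, hZ, hZ, zero_add, zero_add] at h3
    exact h3.symm
  have hpol : ∀ i j k l, polB ω (Z i + Z j) (Z k + Z l) = 0 := by
    intro i j k l
    have h4 : Z k + Z l = (Z i + Z k) + (Z i + Z l) := by
      have : (Z i + Z k) + (Z i + Z l) = (Z i + Z i) + (Z k + Z l) := by abel
      rw [this, h2, zero_add]
    rw [h4, map_add, hadj, hadj, zero_add]
  have hsp : ∀ z ∈ dif Z, ∀ w ∈ dif Z, polB ω z w = 0 := by
    intro z hz w hw
    unfold dif at hz hw
    induction hz using Submodule.span_induction with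
    | mem z hz =>
      obtain ⟨⟨i, j⟩, rfl⟩ := hz
      induction hw using Submodule.span_induction with
      | mem w hw =>
        obtain ⟨⟨k, l⟩, rfl⟩ := hw
        exact hpol i j k l
      | zero => rw [map_zero]
      | add w w' _ _ h h' => rw [map_add, h, h', zero_add]
      | smul a w _ h => rw [map_smul, h, smul_zero]
    | zero => rw [map_zero, LinearMap.zero_apply]
    | add z z' _ _ h h' => rw [map_add, LinearMap.add_apply, h, h', zero_add]
    | smul a z _ h => rw [map_smul, LinearMap.smul_apply, h, smul_zero]
  constructor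
  · intro z hz
    have hz' := hz
    unfold dif at hz
    induction hz using Submodule.span_induction with
    | mem z hz =>
      obtain ⟨⟨i, j⟩, rfl⟩ := hz
      exact hZ i j
    | zero => simp
    | add z z' h3 h4 h h' =>
      rw [Q_add, h h3, h' h4, hsp z h3 z' h4]
      simp
    | smul a z h3 h =>
      simp only [Prod.smul_fst, Prod.smul_snd, map_smul, LinearMap.smul_apply, h h3, smul_zero]
  · -- the order
    have hnd' : ∀ w : V × V, (∀ z, polB ω z w = 0) → w = 0 := by
      intro w hw
      have h3 : w.2 = 0 := by
        apply hnd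
        intro y
        have := hw (y, 0)
        rw [polB_apply] at this
        simpa using this
      have h4 : w.1 = 0 := by
        apply hnd
        intro y
        have := hw (0, y)
        rw [polB_apply] at this
        have h5 : ω y w.1 = 0 := by simpa using this
        have h6 := halt (y + w.1)
        simp only [map_add, LinearMap.add_apply, halt, zero_add, add_zero, h5] at h6
        exact h6
      exact Prod.ext h4 h3
    have hker : LinearMap.ker (polB ω) = ⊥ := by
      rw [LinearMap.ker_eq_bot']
      intro z hz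
      apply hnd' z
      intro w
      have h5 : polB ω z w = 0 := by rw [hz, LinearMap.zero_apply]
      rw [polB_apply] at h5 ⊢
      rw [add_comm]
      exact h5
    have h5 := LinearMap.BilinForm.finrank_add_finrank_orthogonal' (B := polB ω) (dif Z)
    rw [hker, inf_bot_eq, finrank_bot, add_zero, Module.finrank_prod] at h5
    have h6 : dif Z ≤ (polB ω).orthogonal (dif Z) := by
      intro z hz w hw
      exact hsp w hw z hz
    have h7 := Submodule.finrank_mono h6
    have h8 : Module.finrank (ZMod 2) (dif Z) ≤ Module.finrank (ZMod 2) V := by omega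
    rw [Module.natCard_eq_pow_finrank (K := ZMod 2) (V := dif Z),
      Module.natCard_eq_pow_finrank (K := ZMod 2) (V := V)]
    exact Nat.pow_le_pow_right (by simp) h8

end Pool.Agent.Q299.JQ
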