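import Pool.Agent.Q44.JQ.StmC

/-!
# Project JQ: the symbols are bilinear and symmetric
-/

set_option autoImplicit false

namespace Pool.Agent.Q299.JQ

open Q44.JQ Finset
open Pool.Agent.W313.BMX (Splits splits_comm)
open Pool.Agent.Y676.HS (BL bl_real bl_padic)

section

variable {K : Type} [Field K]

theorem hv_zero {a b : K} : hv a b = 0 ↔ Splits a b := by
  unfold hv
  by_cases h : Splits a b
  · rw [if_pos h]; exact ⟨fun _ => h, fun _ => rfl⟩
  · rw [if_neg h]; exact ⟨fun h1 => absurd h1 (by decide), fun h1 => absurd h1 h⟩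

theorem hv_one {a b : K} : hv a b = 1 ↔ ¬ Splits a b := by
  unfold hv
  by_cases h : Splits a b
  · rw [if_pos h]; exact ⟨fun h1 => absurd h1 (by decide), fun h1 => absurd h h1⟩
  · rw [if_neg h]; exact ⟨fun _ => h, fun _ => rfl⟩

theorem hv_comm (a b : K) : hv a b = hv b a := by
  unfold hv
  rw [propext (splits_comm (a := a) (b := b))]

theorem hv_mul (hB : BL K) {a b c : K} (ha : a ≠ 0) (hb : b ≠ 0) (hc : c ≠ 0) :
    hv a (b * c) = hv a b + hv a c := by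
  have h := hB a b c ha hb hc
  by_cases h1 : Splits a b
  · by_cases h2 : Splits a c
    · rw [hv_zero.2 h1, hv_zero.2 h2, hv_zero.2 (h.2 ⟨fun _ => h2, fun _ => h1⟩)]; rfl
    · rw [hv_zero.2 h1, hv_one.2 h2, hv_one.2 fun h3 => h2 ((h.1 h3).1 h1)]; rfl
  · by_cases h2 : Splits a c
    · rw [hv_one.2 h1, hv_zero.2 h2, hv_one.2 fun h3 => h1 ((h.1 h3).2 h2)]; rfl
    · rw [hv_one.2 h1, hv_one.2 h2,
        hv_zero.2 (h.2 ⟨fun h3 => absurd h3 h1, fun h3 => absurd h3 h2⟩)]; rfl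

theorem hv_sq (a b : K) : hv a (b * b) = 0 := by
  rw [hv_zero]
  exact ⟨0, 1, b, Or.inr (Or.inl one_ne_zero), by ring⟩

theorem hv_all (hB : BL K) {a b c : K} (ha : a ≠ 0) (hb : b ≠ 0) (hc : c ≠ 0) :
    hv (a * b) c = hv a c + hv b c ∧ hv c (a * b) = hv c a + hv c b ∧ hv a b = hv b a ∧
    hv a (b * b) = 0 := by
  refine ⟨?_, hv_mul hB hc ha hb, hv_comm a b, hv_sq a b⟩
  rw [hv_comm, hv_mul hB hc ha hb, hv_comm c a, hv_comm c b]

end

theorem t_HVB : S_HVB :=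
  ⟨fun p _ _ _ _ ha hb hc => hv_all (bl_padic p) ha hb hc,
    fun _ _ _ ha hb hc => hv_all bl_real ha hb hc⟩

end Pool.Agent.Q299.JQ
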