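import Pool.Agent.Q44.JQ.StmE
import Pool.Agent.Q182.JQ.ADJH

/-!
# JQ-IRRA: the operators of one curve generate all endomorphisms (after helper182)
-/

set_option autoImplicit false
set_option linter.unusedVariables false

namespace Pool.Agent.Q299.JQ

open Finset Module Q44.JQ
open Pool.Agent.TH344.JG (PR df)
open Q182.JQ.ADJH
open scoped Classical

/-- the operators of a curve -/
theorem TT_eq1 {T : Finset ℕ} (c : Cr T) {φ : Option T → ZMod 2} (hφ : φ none = 0)
    (y : PR (2 * c.g + 1) → ZMod 2) (hy : ∀ x, pr φ (df c.a x) = y x)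
    (x : VV (2 * c.g + 1)) :
    ((c.TT φ : Module.End (ZMod 2) (VV (2 * c.g + 1))) x) =
      ∑ p : PR (2 * c.g + 1), y p • rk (vv p.1.1 p.1.2) (vv p.1.1 p.1.2) x := by
  refine Subtype.ext (funext fun (i : Fin (2 * c.g + 1)) => ?_)
  show c.tf φ x.1 i = (∑ p : PR (2 * c.g + 1), y p •
    rk (vv p.1.1 p.1.2) (vv p.1.1 p.1.2) x : VV (2 * c.g + 1)).1 i
  have hsub : ∀ i j, i ≠ j → c.a i - c.a j ≠ 0 := fun i j h => sub_ne_zero.2 fun h2 => h (c.inj h2)
  have h0 : c.tf φ x.1 i = ∑ j ∈ (univ : Finset (Fin (2 * c.g + 1))).erase i,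
      pr φ (c.a i - c.a j) * (x.1 i + x.1 j) + φ none * x.1 i := rfl
  rw [h0, hφ, zero_mul, add_zero]
  rw [Submodule.coe_sum, Finset.sum_apply]
  -- the second sum
  have hpr : ∀ i j : Fin (2 * c.g + 1), i ≠ j → pr φ (c.a i - c.a j) = pr φ (c.a j - c.a i) := by
    intro i j hij
    have h5 : c.a i - c.a j = -(c.a j - c.a i) := by ring
    rw [h5, pr_neg φ (hsub j i hij.symm), hφ, add_zero]
  -- the sum over the pairs
  have h6 : ∀ p : PR (2 * c.g + 1), ((y p • rk (vv p.1.1 p.1.2) (vv p.1.1 p.1.2) x : VV _) :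
      Fin (2 * c.g + 1) → ZMod 2) i =
      (fun q : Fin (2 * c.g + 1) × Fin (2 * c.g + 1) => pr φ (c.a q.1 - c.a q.2) *
        ((x.1 q.1 + x.1 q.2) * ((if i = q.1 then 1 else 0) + (if i = q.2 then 1 else 0)))) p.1 := by
    intro p
    rw [Submodule.coe_smul, Pi.smul_apply, smul_eq_mul, rk_apply, Submodule.coe_smul, Pi.smul_apply,
      smul_eq_mul, om_vv, vv_apply, ← hy]
    rfl
  rw [sum_congr rfl fun p _ => h6 p]
  have h7 : ∑ p : PR (2 * c.g + 1), (fun q : Fin (2 * c.g + 1) × Fin (2 * c.g + 1) =>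
      pr φ (c.a q.1 - c.a q.2) *
        ((x.1 q.1 + x.1 q.2) * ((if i = q.1 then 1 else 0) + (if i = q.2 then 1 else 0)))) p.1 =
      ∑ q ∈ univ.filter (fun q : Fin (2 * c.g + 1) × Fin (2 * c.g + 1) => q.1 < q.2),
        pr φ (c.a q.1 - c.a q.2) *
        ((x.1 q.1 + x.1 q.2) * ((if i = q.1 then 1 else 0) + (if i = q.2 then 1 else 0))) := by
    symm
    refine Finset.sum_subtype _ (fun q => ?_) _
    rw [mem_filter]
    exact ⟨fun h => h.2, fun h => ⟨mem_univ _, h⟩⟩
  rw [h7, Finset.sum_filter, Fintype.sum_prod_type]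
  set F : Fin (2 * c.g + 1) → Fin (2 * c.g + 1) → ZMod 2 :=
    fun k l => pr φ (c.a k - c.a l) * (x.1 k + x.1 l) with hF
  have hFs : ∀ k l, k ≠ l → F k l = F l k := by
    intro k l hkl
    show pr φ (c.a k - c.a l) * (x.1 k + x.1 l) = pr φ (c.a l - c.a k) * (x.1 l + x.1 k)
    rw [hpr k l hkl, add_comm (x.1 k)]
  have h8 : ∀ k l : Fin (2 * c.g + 1), (if k < l then pr φ (c.a k - c.a l) *
      ((x.1 k + x.1 l) * ((if i = k then 1 else 0) + (if i = l then 1 else 0))) else 0) =
      (if i = k then (if k < l then F k l else 0) else 0) +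
      (if i = l then (if k < l then F k l else 0) else 0) := by
    intro k l
    rw [hF]
    split_ifs <;> ring
  have h9 : ∑ k, ∑ l, (if k < l then pr φ (c.a k - c.a l) *
      ((x.1 k + x.1 l) * ((if i = k then 1 else 0) + (if i = l then 1 else 0))) else 0) =
      ∑ l, (if i < l then F i l else 0) + ∑ k, (if k < i then F k i else 0) := by
    simp only [h8, sum_add_distrib]
    refine congrArg₂ (· + ·) ?_ ?_
    · rw [Finset.sum_comm]
      refine sum_congr rfl fun l _ => ?_
      rw [Finset.sum_ite_eq univ i fun k => if k < l then F k l else 0, if_pos (mem_univ _)]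
    · refine sum_congr rfl fun k _ => ?_
      rw [Finset.sum_ite_eq univ i fun l => if k < l then F k l else 0, if_pos (mem_univ _)]
  refine Eq.trans ?_ h9.symm
  rw [← sum_add_distrib]
  have h10 : ∀ j, ((if i < j then F i j else 0) + if j < i then F j i else 0) =
      if j = i then 0 else F i j := by
    intro j
    rcases lt_trichotomy i j with h | h | h
    · rw [if_pos h, if_neg h.asymm, if_neg h.ne', add_zero]
    · subst h
      rw [if_neg (lt_irrefl _), if_pos rfl, add_zero]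
    · rw [if_neg h.asymm, if_pos h, if_neg h.ne, zero_add, hFs j i h.ne]
  rw [sum_congr rfl fun j _ => h10 j]
  rw [← Finset.sum_erase univ (a := i) (f := fun j => if j = i then 0 else F i j) (if_pos rfl)]
  refine sum_congr rfl fun j hj => ?_
  rw [if_neg (ne_of_mem_erase hj)]

theorem t_IRRA : S_IRRA := by
  intro T c ind
  set A : Subalgebra (ZMod 2) (Module.End (ZMod 2) (VV (2 * c.g + 1))) :=
    Algebra.adjoin (ZMod 2) (Set.range fun φ : Option T → ZMod 2 =>
      (c.TT φ : Module.End (ZMod 2) (VV (2 * c.g + 1)))) with hA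
  show A = ⊤
  refine eq_top_iff.2 fun f _ => ?_
  refine all_mem ?_ (Subalgebra.toSubmodule A) (fun f hf g hg => A.mul_mem hf hg) ?_ f
  · push_cast
    have h5 : (2 : ZMod 2) = 0 := by decide
    rw [h5]
    ring
  · intro i j hij
    obtain ⟨φ, hφ, hφ1, hφ2⟩ := exists_lbl (T := T)
      (fun x : PR (2 * c.g + 1) => df c.a x) ind ⟨(i, j), hij⟩
    have h3 : (c.TT φ : Module.End (ZMod 2) (VV (2 * c.g + 1))) ∈ A :=
      Algebra.subset_adjoin ⟨φ, rfl⟩
    have h4 : (c.TT φ : Module.End (ZMod 2) (VV (2 * c.g + 1))) = rk (vv i j) (vv i j) := by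
      refine LinearMap.ext fun x => ?_
      refine (TT_eq1 c hφ (fun p => pr φ (df c.a p)) (fun p => rfl) x).trans ?_
      rw [Finset.sum_eq_single (⟨(i, j), hij⟩ : PR (2 * c.g + 1))]
      · have h8 : pr φ (df c.a ⟨(i, j), hij⟩) = 1 := hφ1
        rw [h8, one_smul]
      · intro p _ hp
        have h8 : pr φ (df c.a p) = 0 := hφ2 p hp
        rw [h8, zero_smul]
      · intro h6
        exact absurd (mem_univ _) h6
    rw [← h4]
    exact h3

end Pool.Agent.Q299.JQ
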