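import Pool.Agent.Q44.JQ.StmE
import Pool.Agent.Q182.JQ.ADJH

/-!
# JQ-IRRB: the operators of an elliptic curve generate all endomorphisms
-/

set_option autoImplicit false
set_option linter.unusedVariables false

namespace Pool.Agent.Q299.JQ

open Finset Module Q44.JQ
open Q182.JQ.ADJH (rk rk_apply rk_mul vv vv_apply om_vv om_apply all_mem)
theorem expand_aux1 : ∀ p0 p1 q0 q1 x0 x1 : ZMod 2, p0 * q0 + p1 * q1 + (p0 + p1) * (q0 + q1) = 1 →
      x0 = (x0 * q0 + x1 * q1 + (x0 + x1) * (q0 + q1)) * p0 +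
        (x0 * p0 + x1 * p1 + (x0 + x1) * (p0 + p1)) * q0 := by
  decide

theorem expand_aux2 : ∀ p0 p1 q0 q1 x0 x1 : ZMod 2, p0 * q0 + p1 * q1 + (p0 + p1) * (q0 + q1) = 1 →
      x1 = (x0 * q0 + x1 * q1 + (x0 + x1) * (q0 + q1)) * p1 +
        (x0 * p0 + x1 * p1 + (x0 + x1) * (p0 + p1)) * q1 := by
  decide

theorem last_eq : ∀ a b c : ZMod 2, a + b + c = 0 → c = a + b := by decide

theorem expand_aux (p0 p1 p2 q0 q1 q2 x0 x1 x2 : ZMod 2) (hp : p0 + p1 + p2 = 0)
    (hq : q0 + q1 + q2 = 0) (hx : x0 + x1 + x2 = 0) (h : p0 * q0 + p1 * q1 + p2 * q2 = 1) :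
      x0 = (x0 * q0 + x1 * q1 + x2 * q2) * p0 + (x0 * p0 + x1 * p1 + x2 * p2) * q0 ∧
      x1 = (x0 * q0 + x1 * q1 + x2 * q2) * p1 + (x0 * p0 + x1 * p1 + x2 * p2) * q1 ∧
      x2 = (x0 * q0 + x1 * q1 + x2 * q2) * p2 + (x0 * p0 + x1 * p1 + x2 * p2) * q2 := by
  have e1 := last_eq _ _ _ hp
  have e2 := last_eq _ _ _ hq
  have e3 := last_eq _ _ _ hx
  subst e1 e2 e3
  have a1 := expand_aux1 p0 p1 q0 q1 x0 x1 h
  have a2 := expand_aux2 p0 p1 q0 q1 x0 x1 h
  refine ⟨a1, a2, ?_⟩
  calc x0 + x1 = _ := congrArg₂ (· + ·) a1 a2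
    _ = _ := by ring

open scoped Classical

theorem erase3 : ∀ i j l : Fin 3, i ≠ j → i ≠ l → j ≠ l →
    (univ : Finset (Fin 3)).erase i = {j, l} := by decide

theorem cases3 : ∀ i j l : Fin 3, i ≠ j → i ≠ l → j ≠ l → ∀ k : Fin 3, k = i ∨ k = j ∨ k = l := by
  decide

theorem sum3 {i j l : Fin 3} (hij : i ≠ j) (hil : i ≠ l) (hjl : j ≠ l) (f : Fin 3 → ZMod 2) :
    ∑ t, f t = f i + f j + f l := by
  rw [← Finset.add_sum_erase univ f (mem_univ i), erase3 i j l hij hil hjl, sum_pair hjl, add_assoc]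

/-- the sum of the coordinates -/
theorem z3 {i j l : Fin 3} (hij : i ≠ j) (hil : i ≠ l) (hjl : j ≠ l) (x : VV 3) :
    x.1 i + x.1 j + x.1 l = 0 := by
  rw [← sum3 hij hil hjl x.1]
  exact mem_VV.1 x.2

/-- expansion with respect to a symplectic basis -/
theorem expand3 (p q x : VV 3) (h : omV 3 p q = 1) : x = omV 3 x q • p + omV 3 x p • q := by
  have hp := mem_VV.1 p.2
  have hq := mem_VV.1 q.2
  have hx := mem_VV.1 x.2
  rw [om_apply] at h
  rw [om_apply, om_apply]
  refine Subtype.ext (funext fun i => ?_)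
  show x.1 i = (∑ i, x.1 i * q.1 i) * p.1 i + (∑ i, x.1 i * p.1 i) * q.1 i
  rw [Fin.sum_univ_three] at hp hq hx h
  rw [Fin.sum_univ_three, Fin.sum_univ_three]
  obtain ⟨k0, k1, k2⟩ := expand_aux _ _ _ _ _ _ _ _ _ hp hq hx h
  fin_cases i
  · exact k0
  · exact k1
  · exact k2

theorem sorted3 (a : Fin 3 → ℤ) (ha : Function.Injective a) :
    ∃ i j l : Fin 3, a i < a j ∧ a j < a l := by
  have h01 : a 0 ≠ a 1 := fun h => absurd (ha h) (by decide)
  have h02 : a 0 ≠ a 2 := fun h => absurd (ha h) (by decide)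
  have h12 : a 1 ≠ a 2 := fun h => absurd (ha h) (by decide)
  rcases lt_or_gt_of_ne h01 with h | h <;> rcases lt_or_gt_of_ne h02 with h' | h' <;>
    rcases lt_or_gt_of_ne h12 with h'' | h''
  · exact ⟨0, 1, 2, h, h''⟩
  · exact ⟨0, 2, 1, h', h''⟩
  · exact absurd (h.trans h'') h'.asymm
  · exact ⟨2, 0, 1, h', h⟩
  · exact ⟨1, 0, 2, h, h'⟩
  · exact absurd (h'.trans h'') h.asymm
  · exact ⟨1, 2, 0, h'', h'⟩
  · exact ⟨2, 1, 0, h'', h⟩

theorem irrb_aux {T : Finset ℕ} (a : Fin 3 → ℤ) (ha : Function.Injective a)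
    (M : (Option T → ZMod 2) → Module.End (ZMod 2) (VV 3))
    (hM : ∀ φ (x : VV 3) i, (M φ x).1 i =
      ∑ j ∈ univ.erase i, pr φ (a i - a j) * (x.1 i + x.1 j) + φ none * x.1 i)
    (h : ∀ i j l : Fin 3, i ≠ j → i ≠ l → j ≠ l →
      (ct (a i - a j) : Option T → ZMod 2) ≠ ct (a i - a l)) :
    Algebra.adjoin (ZMod 2) (Set.range M) = ⊤ := by
  set A := Algebra.adjoin (ZMod 2) (Set.range M) with hA
  have hMA : ∀ φ, M φ ∈ A := fun φ => Algebra.subset_adjoin ⟨φ, rfl⟩
  have hM3 : ∀ φ (x : VV 3) {i j l : Fin 3}, i ≠ j → i ≠ l → j ≠ l → (M φ x).1 i =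
      pr φ (a i - a j) * (x.1 i + x.1 j) + pr φ (a i - a l) * (x.1 i + x.1 l) +
        φ none * x.1 i := by
    intro φ x i j l hij hil hjl
    rw [hM, erase3 i j l hij hil hjl, sum_pair hjl]
  have hpr1 : ∀ (o : Option T) (z : ℤ), pr (Pi.single o 1) z = ct z o := by
    intro o z
    unfold pr
    rw [Finset.sum_eq_single o]
    · rw [Pi.single_eq_same, one_mul]
    · intro o' _ ho
      rw [Pi.single_eq_of_ne ho, zero_mul]
    · intro h5
      exact absurd (mem_univ _) h5
  -- the two lines are not invariant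
  have hline : ∀ {i j l : Fin 3}, i ≠ j → i ≠ l → j ≠ l →
      ∃ φ, omV 3 (vv j l) (M φ (vv j l)) = 1 := by
    intro i j l hij hil hjl
    have h1 : ∃ o, (ct (a i - a j) : Option T → ZMod 2) o ≠ ct (a i - a l) o := by
      by_contra hcon
      push Not at hcon
      exact h i j l hij hil hjl (funext hcon)
    obtain ⟨o, ho⟩ := h1
    refine ⟨Pi.single o 1, ?_⟩
    have h2 : omV 3 (vv j l) (M (Pi.single o 1) (vv j l)) =
        (M (Pi.single o 1) (vv j l)).1 i := by
      rw [om_vv]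
      have h3 := z3 hij hil hjl (M (Pi.single o 1) (vv j l))
      revert h3
      generalize (M (Pi.single o 1) (vv j l)).1 i = α
      generalize (M (Pi.single o 1) (vv j l)).1 j = β
      generalize (M (Pi.single o 1) (vv j l)).1 l = γ
      revert α β γ
      decide
    rw [h2, hM3 _ _ hij hil hjl, hpr1, hpr1, vv_apply, vv_apply, vv_apply, if_neg hij, if_neg hil,
      if_pos rfl, if_neg hjl, if_neg (Ne.symm hjl), if_pos rfl]
    revert ho
    generalize (ct (a i - a j) : Option T → ZMod 2) o = α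
    generalize (ct (a i - a l) : Option T → ZMod 2) o = β
    simp only [add_zero, zero_add, mul_one, mul_zero]
    revert α β
    decide
  obtain ⟨i, j, l, hlt1, hlt2⟩ := sorted3 a ha
  have hij : i ≠ j := fun h' => by rw [h'] at hlt1; exact lt_irrefl _ hlt1
  have hjl : j ≠ l := fun h' => by rw [h'] at hlt2; exact lt_irrefl _ hlt2
  have hil : i ≠ l := fun h' => by rw [h'] at hlt1; exact lt_irrefl _ (hlt1.trans hlt2)
  -- the idempotent
  have hct : ∀ z : ℤ, (ct z : Option T → ZMod 2) none = if z < 0 then 1 else 0 := fun z => rfl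
  have he : M (Pi.single none 1) = rk (vv j l) (vv i j) := by
    refine LinearMap.ext fun x => Subtype.ext (funext fun k => ?_)
    have hz := z3 hij hil hjl x
    have hr : (rk (vv j l) (vv i j) x).1 k =
        (x.1 i + x.1 j) * ((if k = j then 1 else 0) + (if k = l then 1 else 0)) := by
      rw [rk_apply, om_vv, Submodule.coe_smul, Pi.smul_apply, smul_eq_mul, vv_apply]
    rw [hr]
    rcases cases3 i j l hij hil hjl k with rfl | rfl | rfl
    · rw [hM3 _ _ hij hil hjl, hpr1, hpr1, hct, hct, if_pos (by omega), if_pos (by omega),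
        Pi.single_eq_same, if_neg hij, if_neg hil]
      revert hz
      generalize x.1 k = α
      generalize x.1 j = β
      generalize x.1 l = γ
      revert α β γ
      decide
    · rw [hM3 _ _ (Ne.symm hij) hjl hil, hpr1, hpr1, hct, hct, if_neg (by omega),
        if_pos (by omega), Pi.single_eq_same, if_pos rfl, if_neg hjl]
      revert hz
      generalize x.1 i = α
      generalize x.1 k = β
      generalize x.1 l = γ
      revert α β γ
      decide
    · rw [hM3 _ _ (Ne.symm hil) (Ne.symm hjl) hij, hpr1, hpr1, hct, hct, if_neg (by omega),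
        if_neg (by omega), Pi.single_eq_same, if_neg (Ne.symm hjl), if_pos rfl]
      revert hz
      generalize x.1 i = α
      generalize x.1 j = β
      generalize x.1 k = γ
      revert α β γ
      decide
  set v : VV 3 := vv j l with hv
  set w : VV 3 := vv i j with hw
  have heA : rk v w ∈ A := he ▸ hMA _
  have hwv : omV 3 w v = 1 := by
    rw [hw, om_vv, hv, vv_apply, vv_apply, if_neg hij, if_neg hil, if_pos rfl, if_neg hjl]
    decide
  obtain ⟨φ, hφ⟩ := hline hij hil hjl
  obtain ⟨ψ, hψ⟩ := hline (i := l) (j := i) (l := j) (Ne.symm hil) (Ne.symm hjl) hij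
  rw [← hv] at hφ
  rw [← hw] at hψ
  have hcomp : ∀ (f : Module.End (ZMod 2) (VV 3)) (x y : VV 3), f * rk x y = rk (f x) y := by
    intro f x y
    refine LinearMap.ext fun z => ?_
    rw [Module.End.mul_apply, rk_apply, rk_apply, map_smul]
  -- the first argument
  have h1 : ∀ x : VV 3, rk x w ∈ A := by
    intro x
    have h2 := expand3 v (M φ v) x hφ
    have h3 : rk x w = omV 3 x (M φ v) • rk v w + omV 3 x v • (M φ * rk v w) := by
      rw [hcomp]
      refine LinearMap.ext fun z => ?_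
      rw [LinearMap.add_apply, LinearMap.smul_apply, LinearMap.smul_apply, rk_apply, rk_apply,
        rk_apply]
      conv_lhs => rw [h2]
      rw [smul_add, smul_comm, smul_comm (omV 3 w z) (omV 3 x v)]
    rw [h3]
    exact A.add_mem (A.smul_mem heA _) (A.smul_mem (A.mul_mem (hMA _) heA) _)
  -- the second argument
  have h2 : ∀ x y : VV 3, rk x y ∈ A := by
    intro x y
    have h3 : ∀ z : VV 3, omV 3 y z = (omV 3 y v + omV 3 y w * omV 3 w (M ψ v)) * omV 3 w z +
        omV 3 y w * omV 3 w (M ψ z) := by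
      intro z
      have h4 := expand3 w v z hwv
      have hww : omV 3 w w = 0 := by
        rw [hw, om_vv, vv_apply, vv_apply, if_pos rfl, if_neg hij, if_neg (Ne.symm hij), if_pos rfl]
        decide
      rw [h4]
      simp only [map_add, map_smul, smul_eq_mul, hψ, hwv, hww]
      generalize omV 3 z v = α
      generalize omV 3 z w = β
      generalize omV 3 y w = γ
      generalize omV 3 y v = δ
      generalize omV 3 w (M ψ v) = ε
      revert α β γ δ ε
      decide
    have h4 : rk x y = (omV 3 y v + omV 3 y w * omV 3 w (M ψ v)) • rk x w +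
        omV 3 y w • (rk x w * M ψ) := by
      refine LinearMap.ext fun z => ?_
      rw [LinearMap.add_apply, LinearMap.smul_apply, LinearMap.smul_apply, Module.End.mul_apply,
        rk_apply, rk_apply, rk_apply, h3 z, add_smul, mul_smul, mul_smul]
    rw [h4]
    exact A.add_mem (A.smul_mem (h1 x) _) (A.smul_mem (A.mul_mem (h1 x) (hMA _)) _)
  refine eq_top_iff.2 fun f _ => ?_
  exact all_mem (by decide) (Subalgebra.toSubmodule A) (fun f hf g hg => A.mul_mem hf hg)
    (fun i j _ => h2 _ _) f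

theorem t_IRRB : S_IRRB := by
  intro T c hg h
  have key : ∀ (n : ℕ) (hn : n = 3) (a : Fin n → ℤ) (ha : Function.Injective a)
      (M : (Option T → ZMod 2) → Module.End (ZMod 2) (VV n))
      (hM : ∀ φ (x : VV n) i, (M φ x).1 i =
        ∑ j ∈ univ.erase i, pr φ (a i - a j) * (x.1 i + x.1 j) + φ none * x.1 i)
      (h : ∀ i j l : Fin n, i ≠ j → i ≠ l → j ≠ l →
        (ct (a i - a j) : Option T → ZMod 2) ≠ ct (a i - a l)),
      Algebra.adjoin (ZMod 2) (Set.range M) = ⊤ := by
    intro n hn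
    subst hn
    intro a ha M hM h
    exact irrb_aux a ha M hM h
  exact key (2 * c.g + 1) (by rw [hg]) c.a c.inj (fun φ => c.TT φ) (fun φ x i => rfl) h

end Pool.Agent.Q299.JQ
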