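import Pool.Agent.Q44.JQ.StmE
import Pool.Agent.Q154.JQ.LAJ

/-!
# JQ-LAJ2: the joint law of the dimensions, second version (after helper154)
-/

set_option autoImplicit false

namespace Pool.Agent.Q299.JQ

open Finset Module
open Pool.Agent.Y703.CQ (prs ext)
open Q44.JQ Q154.JQ
open Pool.Agent.Q269.SL (law2 lam2)
open scoped Classical

theorem t_LAJ2 (hLAM2 : S_LAM2) (hSS2 : S_SS2) (hCNT : S_CNT) (hPAR : S_PAR) (hTOR : S_TOR)
    (hPI : S_PI) (hMOM : S_MOM) : S_LAJ2 := by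
  intro s κ _ _ V _ _ _ _ t₀ ρ D hs₀ hOk hAdj r ε hε
  obtain ⟨M, δ, hδ, hM⟩ := hMOM κ (fun k => ((finrank (ZMod 2) (D k).pm : ℕ) : ZMod 2)) r ε hε
  have h1 : ∀ m : κ → ℕ, ∃ R : ℕ, 1 ≤ R ∧ ∀ (U ι : Type) [Fintype U] [Fintype ι] [LinearOrder ι]
      (b : Bk s U ι), b.Ok t₀ ρ R →
      |(∑ α : prs (univ : Finset ι) → ZMod 2, (cnt (DD t₀ D m) b (GmD V) α : ℝ)) /
        2 ^ (prs (univ : Finset ι)).card -
        (Nat.card (UV V m) : ℝ) * ∏ k, (2 : ℝ) ^ (m k * (m k + 1) / 2)| ≤ δ := by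
    intro m
    obtain ⟨hc, hS, hΛ⟩ := hSS2 s κ V t₀ ρ D hs₀ hOk hAdj m
    have hok : (DD t₀ D m).Ok ρ := (hPI s (Σ k, Fin (m k)) (fun c => V c.1) t₀ ρ (fun c => D c.1)
      (fun c => hs₀ c.1) (fun c => hOk c.1)).1
    obtain ⟨R, hR1, hR⟩ := hLAM2 s (UV V m) (DD t₀ D m) ρ hok (GmD V) (SS V m) hS hΛ δ hδ
    refine ⟨R, hR1, ?_⟩
    intro U ι _ _ _ b hb
    rw [← hc]
    exact hR U ι b hb
  choose Rf hRf1 hRf using h1
  refine ⟨max ((Fintype.piFinset fun _ : κ => range (M + 1)).sup Rf) 1, le_max_right _ _, ?_⟩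
  intro U ι _ _ _ b hb
  have hb1 : b.Ok t₀ ρ 1 := mono_ok hb (le_max_right _ _)
  obtain ⟨i₀, -⟩ := exists_label hb1 le_rfl 0
  have : Nonempty (U ⊕ ι) := ⟨Sum.inr i₀⟩
  have hle : ∀ (α : prs (univ : Finset ι) → ZMod 2) (k : κ),
      finrank (ZMod 2) (V k) ≤ finrank (ZMod 2) (Sel (D k) (b.N t₀ α) b.h) := fun α k =>
    finrank_le hTOR (D k) ρ (hOk k) _ _ hb.tot
  obtain ⟨e, he⟩ : ∃ e : (prs (univ : Finset ι) → ZMod 2) → κ → ℕ, ∀ α k,
      finrank (ZMod 2) (Sel (D k) (b.N t₀ α) b.h) = finrank (ZMod 2) (V k) + e α k :=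
    ⟨fun α k => finrank (ZMod 2) (Sel (D k) (b.N t₀ α) b.h) - finrank (ZMod 2) (V k), fun α k =>
      (Nat.add_sub_cancel' (hle α k)).symm⟩
  have hpar : ∀ α k, ((e α k : ℕ) : ZMod 2) = ((finrank (ZMod 2) (D k).pm : ℕ) : ZMod 2) := by
    intro α k
    have h2 := hPAR s (V k) (U ⊕ ι) (D k) ρ (hOk k) (b.N t₀ α) b.h
      (by rw [hs₀ k]; exact rec_of hb1 α) (spn_of hb1 le_rfl)
    rw [he α k] at h2
    have h3 : Even (finrank (ZMod 2) (V k)) := even_of_nd (D k).ω (hOk k).alt (hOk k).nd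
    obtain ⟨a, ha⟩ := h3
    rw [ha] at h2
    push_cast at h2
    rw [CharTwo.add_self_eq_zero, zero_add] at h2
    exact h2
  have hΩ : (Fintype.card (prs (univ : Finset ι) → ZMod 2) : ℝ) = 2 ^ (prs (univ : Finset ι)).card := by
    rw [Fintype.card_fun, ZMod.card, Fintype.card_coe]
    push_cast
    rfl
  have hmain := hM (prs (univ : Finset ι) → ZMod 2) e hpar (by
    intro m hm
    have hmem : m ∈ Fintype.piFinset fun _ : κ => range (M + 1) := by
      rw [Fintype.mem_piFinset]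
      intro k
      rw [mem_range]
      exact Nat.lt_succ_of_le (hm k)
    have h2 := hRf m U ι b (mono_ok hb ((Finset.le_sup (f := Rf) hmem).trans (le_max_left _ _)))
    have h3 : ∀ α, (cnt (DD t₀ D m) b (GmD V) α : ℝ) = (Nat.card (UV V m) : ℝ) *
        ∏ k, ∏ i ∈ range (m k), ((2 : ℝ) ^ e α k - 2 ^ i) := by
      intro α
      rw [hCNT s κ V t₀ ρ D hs₀ hOk m U ι b hb1 α, card_UV, ← prod_mul_distrib]
      refine prod_congr rfl fun k _ => ?_
      have h4 : (Nat.card (Sel (D k) (b.N t₀ α) b.h) : ℝ) =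
          (Nat.card (V k) : ℝ) * 2 ^ e α k := by
        rw [card_two, he α k, pow_add, card_two]
      rw [h4]
      have h5 : ∀ i ∈ range (m k), (Nat.card (V k) : ℝ) * 2 ^ e α k - (Nat.card (V k) : ℝ) * 2 ^ i =
          (Nat.card (V k) : ℝ) * (2 ^ e α k - 2 ^ i) := fun i _ => by ring
      rw [prod_congr rfl h5, prod_mul_distrib, prod_const, card_range]
    rw [sum_congr rfl fun α _ => h3 α, ← mul_sum, mul_div_assoc, ← mul_sub, abs_mul] at h2
    rw [hΩ]
    have h6 : (1 : ℝ) ≤ |(Nat.card (UV V m) : ℝ)| := by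
      rw [abs_of_nonneg (Nat.cast_nonneg _)]
      have : Finite (UV V m) := inferInstance
      have : Nonempty (UV V m) := ⟨0⟩
      exact_mod_cast Nat.card_pos
    refine le_trans ?_ h2
    exact le_mul_of_one_le_left (abs_nonneg _) h6)
  rw [hΩ] at hmain
  have hset : (univ.filter fun α : prs (univ : Finset ι) → ZMod 2 =>
        ∀ k, finrank (ZMod 2) (Sel (D k) (b.N t₀ α) b.h) = finrank (ZMod 2) (V k) + r k) =
      univ.filter fun w => e w = r := by
    ext α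
    simp only [mem_filter, mem_univ, true_and]
    constructor
    · intro h
      funext k
      have h2 := h k
      rw [he α k] at h2
      omega
    · intro h k
      rw [he α k, h]
  rw [hset]
  exact hmain

end Pool.Agent.Q299.JQ
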