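import Pool.Agent.Q299.JQ.HVB

/-!
# Project JQ: the product formula
-/

set_option autoImplicit false

namespace Pool.Agent.Q299.JQ

open Q44.JQ Finset
open Pool.Agent.W313.BMX (Splits splits_comm ram diag)

theorem hp_eq (p : ℕ) [hp' : Fact p.Prime] (a b : ℤ) :
    hp p a b = hv (a : ℚ_[p]) (b : ℚ_[p]) := by
  unfold hp
  rw [dif_pos hp'.out]

theorem t_PF : S_PF := by
  classical
  intro a b ha hb W hW hdiv
  have hR : (ram (diag a) b).Finite ∧ Even (ram (diag a) b).ncard :=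
    Pool.Agent.W351.HB.PF.ev_all Pool.Agent.W215.HB.bilo_ Pool.Agent.W864.HBm.bilt_ a b ha hb
  set g : Option Nat.Primes → ZMod 2 := fun v => if v ∈ ram (diag a) b then 1 else 0 with hg
  have h1 : hv (a : ℝ) (b : ℝ) = g none := by
    simp only [hg]
    by_cases h : Splits (a : ℝ) (b : ℝ)
    · rw [hv_zero.2 h, if_neg]
      rw [Pool.Agent.W351.HB.PF.mem_none]
      exact fun h2 => h2 h
    · rw [hv_one.2 h, if_pos]
      rw [Pool.Agent.W351.HB.PF.mem_none]
      exact h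
  have h2 : ∀ q : Nat.Primes, hp (q : ℕ) a b = g (some q) := by
    intro q
    have : Fact (q : ℕ).Prime := ⟨q.2⟩
    rw [hp_eq]
    simp only [hg]
    by_cases h : Splits (a : ℚ_[(q : ℕ)]) (b : ℚ_[(q : ℕ)])
    · rw [hv_zero.2 h, if_neg]
      rw [Pool.Agent.W351.HB.PF.mem_some]
      exact fun h2 => h2 h
    · rw [hv_one.2 h, if_pos]
      rw [Pool.Agent.W351.HB.PF.mem_some]
      exact h
  obtain ⟨W', hW'⟩ : ∃ W' : Finset Nat.Primes, ∀ q : Nat.Primes, q ∈ W' ↔ (q : ℕ) ∈ W :=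
    ⟨W.subtype Nat.Prime, fun q => Finset.mem_subtype⟩
  have h3 : ∑ p ∈ W, hp p a b = ∑ q ∈ W', g (some q) := by
    refine (sum_bij (fun (q : Nat.Primes) _ => (q : ℕ)) ?_ ?_ ?_ ?_).symm
    · intro q hq
      exact (hW' q).1 hq
    · intro q _ q' _ h
      exact Nat.Primes.coe_nat_injective h
    · intro p hp1
      exact ⟨⟨p, hW p hp1⟩, (hW' _).2 hp1, rfl⟩
    · intro q _
      exact (h2 q).symm
  rw [h1, h3]
  have h4 : g none + ∑ q ∈ W', g (some q) = ∑ v ∈ Finset.insertNone W', g v := by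
    rw [Finset.sum_insertNone]
  have h5 : ((Finset.insertNone W').filter
      fun v => v ∈ ram (diag a) b) = hR.1.toFinset := by
    ext v
    rw [mem_filter, Set.Finite.mem_toFinset]
    refine ⟨fun h => h.2, fun h => ⟨?_, h⟩⟩
    cases v with
    | none => simp
    | some q =>
      rw [Finset.some_mem_insertNone, hW']
      by_contra hq
      have : Fact (q : ℕ).Prime := ⟨q.2⟩
      rw [Pool.Agent.W351.HB.PF.mem_some] at h
      have h6 : ¬ ((q : ℕ) : ℤ) ∣ 2 * a * b := fun h7 => hq (hdiv q q.2 h7)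
      have h7 : (q : ℕ) ≠ 2 := by
        intro h8
        apply h6
        rw [h8]
        exact ⟨a * b, by push_cast; ring⟩
      have h8 : ¬ ((q : ℕ) : ℤ) ∣ a := fun h9 => h6 ((h9.mul_left 2).mul_right b)
      have h9 : ¬ ((q : ℕ) : ℤ) ∣ b := fun h10 => h6 (h10.mul_left (2 * a))
      exact h (Pool.Agent.Y676.splits_unit h7 h8 h9)
  rw [h4]
  simp only [hg]
  rw [← sum_filter, sum_const, nsmul_eq_mul, mul_one, h5,
    ← Set.ncard_eq_toFinset_card _ hR.1]
  obtain ⟨m, hm⟩ := hR.2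
  rw [hm]
  push_cast
  exact CharTwo.add_self_eq_zero _

end Pool.Agent.Q299.JQ
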