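import Pool.Agent.Q299.JQ.PF

/-!
# Project JQ: the tame symbol
-/

set_option autoImplicit false

namespace Pool.Agent.Q299.JQ

open Q44.JQ Finset
open Q44.TI (ch ch_zero)
open Pool.Agent.W313.BMX (Splits splits_comm)

/-- The sign of an element of the field with two elements. -/
def sz (a : ZMod 2) : ℤ := if a = 0 then 1 else -1

theorem sz_add : ∀ a b : ZMod 2, sz (a + b) = sz a * sz b := by decide

theorem sz_one : ∀ a : ZMod 2, sz a = 1 ↔ a = 0 := by decide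

theorem sz_pow (n : ℕ) (a : ZMod 2) : sz a ^ n = sz ((n : ZMod 2) * a) := by
  induction n with
  | zero => simp [sz]
  | succ n ih => rw [pow_succ, ih, ← sz_add]; congr 1; push_cast; ring

theorem leg_sz {p : ℕ} [Fact p.Prime] {x : ℤ} (hx : ¬ (p : ℤ) ∣ x) :
    legendreSym p x = sz (ch ((x : ℤ) : ZMod p)) := by
  have h0 : ((x : ℤ) : ZMod p) ≠ 0 := by
    rw [Ne, ZMod.intCast_zmod_eq_zero_iff_dvd]
    exact hx
  by_cases h : IsSquare ((x : ℤ) : ZMod p)
  · rw [(legendreSym.eq_one_iff p h0).2 h, ch_zero.2 h]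
    rfl
  · rw [(legendreSym.eq_neg_one_iff p).2 h]
    unfold ch
    rw [if_neg h]
    rfl

theorem t_TAME : S_TAME := by
  intro p hp' hp2 i j y z hy hz
  have : Fact p.Prime := ⟨hp'⟩
  have h1 := Pool.Agent.W215.HB.case_gen hp2 hy hz i j
  have h2 : ¬ (p : ℤ) ∣ -1 := Pool.Agent.W215.HB.neg_one_nd
  unfold Pool.Agent.W215.HB.sg at h1
  rw [leg_sz hy, leg_sz hz, leg_sz h2, sz_pow, sz_pow, sz_pow, ← sz_add, ← sz_add, sz_one] at h1
  rw [hp_eq]
  have h3 : ∀ t : ZMod 2, t = 0 ∨ t = 1 := by decide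
  have h4 : ((i * j : ℕ) : ZMod 2) * ch ((-1 : ℤ) : ZMod p) + (i : ZMod 2) * ch ((z : ℤ) : ZMod p) +
      (j : ZMod 2) * ch ((y : ℤ) : ZMod p) = (i : ZMod 2) * j * ch ((-1 : ℤ) : ZMod p) +
      i * ch ((z : ℤ) : ZMod p) + j * ch ((y : ℤ) : ZMod p) := by
    push_cast; ring
  rw [h4] at h1
  rcases h3 ((i : ZMod 2) * j * ch ((-1 : ℤ) : ZMod p) +
      i * ch ((z : ℤ) : ZMod p) + j * ch ((y : ℤ) : ZMod p)) with h5 | h5
  · rw [h5, hv_zero]
    exact h1.2 h5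
  · rw [h5, hv_one]
    intro h6
    have h7 := h1.1 h6
    rw [h5] at h7
    exact absurd h7 (by decide)

end Pool.Agent.Q299.JQ
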